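import Pool.Agent.Helper188.NCM.Stmts2

/-! Positive definite sequences (`TaskPD`). -/

set_option autoImplicit false

open Finset

namespace Pool.Agent.H398R3.NCM

open Pool.Agent.Helper188.NCM

theorem ee_add (x y : ℝ) : ee (x + y) = ee x * ee y := by
  unfold ee
  rw [← Complex.exp_add]
  push_cast
  congr 1
  ring

theorem ee_zero : ee 0 = 1 := by simp [ee]

theorem star_ee (x : ℝ) : star (ee x) = ee (-x) := by
  unfold ee
  rw [Complex.star_def, ← Complex.exp_conj]
  congr 1
  simp only [map_mul, Complex.conj_ofReal, Complex.conj_I, map_ofNat, Complex.ofReal_neg]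
  ring

theorem ee_int (k : ℤ) : ee (k : ℝ) = 1 := by
  unfold ee
  rw [Complex.exp_eq_one_iff]
  exact ⟨k, by push_cast; ring⟩

theorem ee_pow (x : ℝ) (l : ℕ) : ee (l * x) = ee x ^ l := by
  unfold ee
  rw [← Complex.exp_nat_mul]
  push_cast
  congr 1
  ring

theorem ee_eq_one {x : ℝ} (h : ee x = 1) : ∃ k : ℤ, x = k := by
  unfold ee at h
  rw [Complex.exp_eq_one_iff] at h
  obtain ⟨n, hn⟩ := h
  refine ⟨n, ?_⟩
  have h2 : (2 * Real.pi * Complex.I : ℂ) ≠ 0 := Complex.two_pi_I_ne_zero
  have h3 : (2 * Real.pi * Complex.I : ℂ) * (x : ℂ) = (2 * Real.pi * Complex.I) * (n : ℂ) := by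
    rw [hn]; ring
  have h4 := mul_left_cancel₀ h2 h3
  exact_mod_cast h4

theorem E_sum (L : ℕ) (hL : 0 < L) (d : ℤ) (hd : |d| < L) :
    ∑ j ∈ range L, ee ((j : ℝ) / L * d) = if d = 0 then (L : ℂ) else 0 := by
  have hL' : (L : ℝ) ≠ 0 := by positivity
  split_ifs with h
  · subst h
    simp [ee_zero]
  · set ζ := ee ((d : ℝ) / L) with hζ
    have h1 : ζ ≠ 1 := by
      intro h1
      obtain ⟨k, hk⟩ := ee_eq_one h1
      rw [div_eq_iff hL'] at hk
      have hk' : d = k * L := by exact_mod_cast hk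
      have hk0 : k ≠ 0 := by
        rintro rfl
        simp at hk'
        exact h hk'
      have : (L : ℤ) ≤ |d| := by
        rw [hk', abs_mul, Nat.abs_cast]
        have := Int.one_le_abs hk0
        nlinarith [Int.natCast_nonneg L]
      omega
    have h2 : ζ ^ L = 1 := by
      rw [hζ, ← ee_pow]
      have : (L : ℝ) * ((d : ℝ) / L) = (d : ℤ) := by field_simp
      rw [this, ee_int]
    have h3 : ∀ j ∈ range L, ee ((j : ℝ) / L * d) = ζ ^ j := by
      intro j _
      rw [hζ, ← ee_pow]
      congr 1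
      ring
    rw [sum_congr rfl h3, geom_sum_eq h1, h2]
    simp

theorem count (M : ℕ) (d : ℤ) (hd : |d| ≤ M) :
    ∑ k ∈ range M, ∑ l ∈ range M, (if ((k : ℤ) - l) = d then (1 : ℂ) else 0) =
      (M : ℂ) - ((|d| : ℤ) : ℂ) := by
  have h1 : ∀ k ∈ range M, ∑ l ∈ range M, (if ((k : ℤ) - l) = d then (1 : ℂ) else 0) =
      if (d ≤ k ∧ (k : ℤ) < M + d) then (1 : ℂ) else 0 := by
    intro k hk
    rw [mem_range] at hk
    split_ifs with h
    · obtain ⟨l, hl⟩ := Int.eq_ofNat_of_zero_le (sub_nonneg.2 h.1)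
      rw [sum_eq_single l]
      · rw [if_pos (by omega)]
      · intro b _ hb
        rw [if_neg (by omega)]
      · intro hb
        rw [mem_range] at hb
        omega
    · apply sum_eq_zero
      intro l hl
      rw [mem_range] at hl
      rw [if_neg]
      intro h2
      apply h
      omega
  rw [sum_congr rfl h1]
  rcases le_total 0 d with h0 | h0
  · obtain ⟨a, ha⟩ := Int.eq_ofNat_of_zero_le h0
    subst ha
    have ha : a ≤ M := by
      rw [Nat.abs_cast] at hd
      exact_mod_cast hd
    rw [← sum_filter]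
    have : (range M).filter (fun k : ℕ => ((a : ℤ) ≤ k ∧ (k : ℤ) < M + (a : ℤ))) = Ico a M := by
      ext k
      simp only [mem_filter, mem_range, mem_Ico]
      omega
    rw [this]
    simp [Nat.cast_sub ha]
  · obtain ⟨a, ha⟩ := Int.eq_ofNat_of_zero_le (neg_nonneg.2 h0)
    have hda : d = -(a : ℤ) := by omega
    subst hda
    have ha : a ≤ M := by
      rw [abs_neg, Nat.abs_cast] at hd
      exact_mod_cast hd
    rw [← sum_filter]
    have : (range M).filter (fun k : ℕ => (-(a : ℤ) ≤ k ∧ (k : ℤ) < M + -(a : ℤ))) =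
        range (M - a) := by
      ext k
      simp only [mem_filter, mem_range]
      omega
    rw [this]
    simp [Nat.cast_sub ha]

theorem taskPD : TaskPD := by
  intro g hg N c C hC hβ
  set T : ℝ := (∑ n ∈ range N, ∑ m ∈ range N, c n * star (c m) * g ((n : ℤ) - m)).re with hT
  set B : ℝ := (∑ n ∈ range N, ∑ m ∈ range N,
    c n * star (c m) * g ((n : ℤ) - m) * ((|(n : ℤ) - m| : ℤ) : ℂ)).re with hB
  have key : ∀ M : ℕ, N ≤ M → 0 < M → (M : ℝ) * T - B ≤ M * (C ^ 2 * (g 0).re) := by
    intro M hNM hM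
    set L : ℕ := M + N with hL
    have hL0 : 0 < L := by omega
    set P : ℕ → ℂ := fun j => ∑ n ∈ range N, c n * ee (-((j : ℝ) / L) * n) with hP
    set W : ℕ → ℂ := fun j => ∑ k ∈ range M, ∑ l ∈ range M,
      ee ((j : ℝ) / L * k) * star (ee ((j : ℝ) / L * l)) * g ((k : ℤ) - l) with hW
    have hW1 : ∀ j, 0 ≤ (W j).re ∧ (W j).im = 0 := fun j =>
      hg M (fun k => ee ((j : ℝ) / L * k))
    have hWsum : ∑ j ∈ range L, W j = (L : ℂ) * M * g 0 := by
      simp only [hW]
      rw [sum_comm]
      have : ∀ k ∈ range M, ∑ j ∈ range L, ∑ l ∈ range M,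
          ee ((j : ℝ) / L * k) * star (ee ((j : ℝ) / L * l)) * g ((k : ℤ) - l) =
          (L : ℂ) * g 0 := by
        intro k hk
        rw [sum_comm]
        have h1 : ∀ l ∈ range M, ∑ j ∈ range L,
            ee ((j : ℝ) / L * k) * star (ee ((j : ℝ) / L * l)) * g ((k : ℤ) - l) =
            if l = k then (L : ℂ) * g 0 else 0 := by
          intro l hl
          rw [mem_range] at hk hl
          rw [← sum_mul]
          have h2 : ∀ j ∈ range L, ee ((j : ℝ) / L * k) * star (ee ((j : ℝ) / L * l)) =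
              ee ((j : ℝ) / L * ((k : ℤ) - l : ℤ)) := by
            intro j _
            rw [star_ee, ← ee_add]
            congr 1
            push_cast
            ring
          rw [sum_congr rfl h2, E_sum L hL0 _ (by rw [abs_lt]; constructor <;> omega)]
          by_cases hlk : l = k
          · subst hlk; simp
          · rw [if_neg (by omega), if_neg hlk, zero_mul]
        rw [sum_congr rfl h1, sum_ite_eq' (range M) k, if_pos hk]
      rw [sum_congr rfl this]
      simp
      ring
    have hmain : ∑ j ∈ range L, P j * star (P j) * W j =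
        ∑ n ∈ range N, ∑ m ∈ range N, (L : ℂ) * (c n * star (c m) * g ((n : ℤ) - m) *
          ((M : ℂ) - ((|(n : ℤ) - m| : ℤ) : ℂ))) := by
      have h1 : ∀ j ∈ range L, P j * star (P j) * W j =
          ∑ n ∈ range N, ∑ m ∈ range N, ∑ k ∈ range M, ∑ l ∈ range M,
            c n * star (c m) * g ((k : ℤ) - l) *
              ee ((j : ℝ) / L * (((k : ℤ) - l) - ((n : ℤ) - m) : ℤ)) := by
        intro j _
        simp only [hP, hW]
        rw [star_sum, sum_mul_sum, sum_mul]
        refine sum_congr rfl fun n _ => ?_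
        rw [sum_mul]
        refine sum_congr rfl fun m _ => ?_
        rw [mul_sum]
        refine sum_congr rfl fun k _ => ?_
        rw [mul_sum]
        refine sum_congr rfl fun l _ => ?_
        rw [star_mul', star_ee, star_ee]
        have e1 : ee ((j : ℝ) / L * (((k : ℤ) - l) - ((n : ℤ) - m) : ℤ)) =
            ee (-((j : ℝ) / L) * n) * ee (-(-((j : ℝ) / L) * m)) *
              (ee ((j : ℝ) / L * k) * ee (-((j : ℝ) / L * l))) := by
          rw [← ee_add, ← ee_add, ← ee_add]
          congr 1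
          push_cast
          ring
        rw [e1]
        ring
      rw [sum_congr rfl h1, sum_comm]
      refine sum_congr rfl fun n hn => ?_
      rw [sum_comm]
      refine sum_congr rfl fun m hm => ?_
      rw [mem_range] at hn hm
      rw [sum_comm]
      have h2 : ∀ k ∈ range M, ∑ j ∈ range L, ∑ l ∈ range M, c n * star (c m) * g ((k : ℤ) - l) *
          ee ((j : ℝ) / L * (((k : ℤ) - l) - ((n : ℤ) - m) : ℤ)) =
          ∑ l ∈ range M, (L : ℂ) * (c n * star (c m) * g ((n : ℤ) - m)) *
            (if ((k : ℤ) - l) = (n : ℤ) - m then (1 : ℂ) else 0) := by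
        intro k hk
        rw [sum_comm]
        refine sum_congr rfl fun l hl => ?_
        rw [mem_range] at hk hl
        rw [← mul_sum, E_sum L hL0 _ (by rw [abs_lt]; constructor <;> omega)]
        by_cases h : ((k : ℤ) - l) = (n : ℤ) - m
        · rw [if_pos (by omega), if_pos h, h]
          ring
        · rw [if_neg (by omega), if_neg h]
          ring
      rw [sum_congr rfl h2]
      simp only [← mul_sum]
      rw [count M _ (by rw [abs_le]; constructor <;> omega)]
      ring
    have hle : (∑ j ∈ range L, P j * star (P j) * W j).re ≤ C ^ 2 * (∑ j ∈ range L, W j).re := by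
      rw [Complex.re_sum, Complex.re_sum, mul_sum]
      refine sum_le_sum fun j _ => ?_
      have h1 : P j * star (P j) = ((‖P j‖ ^ 2 : ℝ) : ℂ) := by
        rw [Complex.star_def, Complex.mul_conj, Complex.normSq_eq_norm_sq]
      rw [h1, Complex.re_ofReal_mul]
      have h2 : ‖P j‖ ≤ C := hβ _
      have h3 : ‖P j‖ ^ 2 ≤ C ^ 2 := by
        have := norm_nonneg (P j)
        nlinarith
      exact mul_le_mul_of_nonneg_right h3 (hW1 j).1
    rw [hmain, hWsum] at hle
    have h3 : (∑ n ∈ range N, ∑ m ∈ range N, (L : ℂ) * (c n * star (c m) * g ((n : ℤ) - m) *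
          ((M : ℂ) - ((|(n : ℤ) - m| : ℤ) : ℂ)))) =
        (L : ℂ) * ((M : ℂ) * (∑ n ∈ range N, ∑ m ∈ range N, c n * star (c m) * g ((n : ℤ) - m)) -
          ∑ n ∈ range N, ∑ m ∈ range N,
            c n * star (c m) * g ((n : ℤ) - m) * ((|(n : ℤ) - m| : ℤ) : ℂ)) := by
      simp only [mul_sum, mul_sub, ← sum_sub_distrib]
      refine sum_congr rfl fun n _ => sum_congr rfl fun m _ => ?_
      ring
    rw [h3] at hle
    have h4 : ((L : ℂ) * ((M : ℂ) * (∑ n ∈ range N, ∑ m ∈ range N, c n * star (c m) * g ((n : ℤ) - m)) -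
          ∑ n ∈ range N, ∑ m ∈ range N,
            c n * star (c m) * g ((n : ℤ) - m) * ((|(n : ℤ) - m| : ℤ) : ℂ))).re =
        (L : ℝ) * ((M : ℝ) * T - B) := by
      rw [← Complex.ofReal_natCast L, Complex.re_ofReal_mul, Complex.sub_re,
        ← Complex.ofReal_natCast M, Complex.re_ofReal_mul]
    have h5 : ((L : ℂ) * M * g 0).re = (L : ℝ) * (M * (g 0).re) := by
      rw [mul_assoc, ← Complex.ofReal_natCast L, Complex.re_ofReal_mul,
        ← Complex.ofReal_natCast M, Complex.re_ofReal_mul]
    rw [h4, h5] at hle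
    have hLp : (0 : ℝ) < L := by exact_mod_cast hL0
    have h6 : (L : ℝ) * ((M : ℝ) * T - B) ≤ L * (M * (C ^ 2 * (g 0).re)) := by
      refine hle.trans (le_of_eq ?_)
      ring
    exact le_of_mul_le_mul_left h6 hLp
  by_contra hcon
  push Not at hcon
  obtain ⟨M, hM⟩ := exists_nat_gt (B / (T - C ^ 2 * (g 0).re))
  have hpos : 0 < T - C ^ 2 * (g 0).re := by linarith
  have h1 := key (M + N + 1) (by omega) (by omega)
  rw [div_lt_iff₀ hpos] at hM
  push_cast at h1
  have hN : (0 : ℝ) ≤ N := Nat.cast_nonneg N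
  have h2 : 0 ≤ ((N : ℝ) + 1) * (T - C ^ 2 * (g 0).re) := by positivity
  linarith

end Pool.Agent.H398R3.NCM
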